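import Pool.Agent.helper81.UH.Spec

/-!
# Project uh (MP_a2a22c_al), row GRP: the logarithms are closed under the group law (helper30)
-/

set_option autoImplicit false

namespace Pool.Agent.UH

open Matrix Pool.Agent.H48SL Pool.Agent.UG

/-- the span of the products of `k` or more elements -/
def GRP_fil {n : ℕ} (𝔞 : Submodule ℚ (MQ n)) (k : ℕ) : Submodule ℚ (MQ n) :=
  Submodule.span ℚ {P | ∃ l : List (MQ n), (∀ X ∈ l, X ∈ 𝔞) ∧ k ≤ l.length ∧ l.prod = P}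

lemma GRP_fil_mul {n : ℕ} (𝔞 : Submodule ℚ (MQ n)) (j k : ℕ) {x y : MQ n}
    (hx : x ∈ GRP_fil 𝔞 j) (hy : y ∈ GRP_fil 𝔞 k) : x * y ∈ GRP_fil 𝔞 (j + k) := by
  unfold GRP_fil at *
  have h := Submodule.mul_mem_mul hx hy
  rw [Submodule.span_mul_span] at h
  refine Submodule.span_mono ?_ h
  rintro _ ⟨_, ⟨l, hl, hjl, rfl⟩, _, ⟨l', hl', hkl, rfl⟩, rfl⟩
  refine ⟨l ++ l', ?_, ?_, ?_⟩
  · intro X hX
    rcases List.mem_append.1 hX with h | h
    exacts [hl X h, hl' X h]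
  · rw [List.length_append]
    omega
  · exact List.prod_append

lemma GRP_fil_anti {n : ℕ} (𝔞 : Submodule ℚ (MQ n)) {j k : ℕ} (h : j ≤ k) :
    GRP_fil 𝔞 k ≤ GRP_fil 𝔞 j := by
  refine Submodule.span_mono ?_
  rintro _ ⟨l, hl, hk, rfl⟩
  exact ⟨l, hl, h.trans hk, rfl⟩

lemma GRP_fil_zero {n N : ℕ} {𝔞 : Submodule ℚ (MQ n)} (hN : NN N 𝔞) {x : MQ n}
    (hx : x ∈ GRP_fil 𝔞 N) : x = 0 := by
  have h : GRP_fil 𝔞 N ≤ ⊥ := by
    refine Submodule.span_le.2 ?_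
    rintro _ ⟨l, hl, hk, rfl⟩
    exact hN l hl hk
  exact (Submodule.mem_bot ℚ).1 (h hx)

lemma GRP_fil_one {n : ℕ} (𝔞 : Submodule ℚ (MQ n)) : (1 : MQ n) ∈ GRP_fil 𝔞 0 :=
  Submodule.subset_span ⟨[], by simp, le_refl _, List.prod_nil⟩

lemma GRP_fil_mem {n : ℕ} {𝔞 : Submodule ℚ (MQ n)} {X : MQ n} (hX : X ∈ 𝔞) :
    X ∈ GRP_fil 𝔞 1 :=
  Submodule.subset_span ⟨[X], by simpa using hX, by simp, by simp⟩

lemma GRP_fil_pow {n : ℕ} (𝔞 : Submodule ℚ (MQ n)) {x : MQ n} (hx : x ∈ GRP_fil 𝔞 1) (k : ℕ) :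
    x ^ k ∈ GRP_fil 𝔞 k := by
  induction k with
  | zero => rw [pow_zero]; exact GRP_fil_one 𝔞
  | succ k ih => rw [pow_succ]; exact GRP_fil_mul 𝔞 k 1 ih hx

lemma GRP_EX {n N : ℕ} {𝔞 : Submodule ℚ (MQ n)} {X : MQ n} (hX : X ∈ 𝔞) :
    EX (N + 1) X - 1 ∈ GRP_fil 𝔞 1 := by
  have h : EX (N + 1) X - 1 =
      ∑ i ∈ Finset.range N, (((i + 1).factorial : ℚ)⁻¹) • X ^ (i + 1) := by
    unfold EX
    rw [Finset.sum_range_succ']
    simp
  rw [h]
  refine Submodule.sum_mem _ fun i _ => Submodule.smul_mem _ _ ?_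
  exact GRP_fil_anti 𝔞 (by omega) (GRP_fil_pow 𝔞 (GRP_fil_mem hX) (i + 1))

lemma GRP_nil {n N : ℕ} {𝔞 : Submodule ℚ (MQ n)} (hN : NN N 𝔞) {X Y : MQ n} (hX : X ∈ 𝔞)
    (hY : Y ∈ 𝔞) : (EX N X * EX N Y - 1) ^ N = 0 := by
  cases N with
  | zero =>
    rw [pow_zero]
    have h := hN [] (by simp) (le_refl _)
    rwa [List.prod_nil] at h
  | succ N =>
    apply GRP_fil_zero hN
    apply GRP_fil_pow
    have h : EX (N + 1) X * EX (N + 1) Y - 1 =
        (EX (N + 1) X - 1) * (EX (N + 1) Y - 1) + (EX (N + 1) X - 1) + (EX (N + 1) Y - 1) := by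
      noncomm_ring
    rw [h]
    refine Submodule.add_mem _ (Submodule.add_mem _ ?_ (GRP_EX hX)) (GRP_EX hY)
    exact GRP_fil_anti 𝔞 (by omega) (GRP_fil_mul 𝔞 1 1 (GRP_EX hX) (GRP_EX hY))

lemma GRP_pow {n N : ℕ} {𝔞 : Submodule ℚ (MQ n)} (hN : NN N 𝔞) {X : MQ n} (hX : X ∈ 𝔞) :
    X ^ N = 0 := by
  have h := hN (List.replicate N X) (fun Y hY => by rw [List.eq_of_mem_replicate hY]; exact hX)
    (by rw [List.length_replicate])
  rwa [List.prod_replicate] at h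

lemma GRP_exp {n N : ℕ} {𝔞 : Submodule ℚ (MQ n)} (hN : NN N 𝔞) {X : MQ n} (hX : X ∈ 𝔞) :
    EX N X = IsNilpotent.exp X := by
  rw [IsNilpotent.exp_eq_sum (GRP_pow hN hX)]
  rfl

lemma GRP_PCE {n N : ℕ} (X : MQ n) : PC (fun t : ℚ => EX N (t • X)) := by
  have h : (fun t : ℚ => EX N (t • X)) = fun t : ℚ => ∑ i ∈ Finset.range N,
      (Polynomial.C ((i.factorial : ℚ)⁻¹)).eval t • ((Polynomial.X : Polynomial ℚ).eval t • X) ^ i := by
    funext t
    unfold EX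
    simp only [Polynomial.eval_C, Polynomial.eval_X]
  rw [h]
  exact PC.sum _ _ fun i _ => (((PC.const X).smul Polynomial.X).pow i).smul _

lemma GRP_PCA {n : ℕ} {F : ℚ → MQ n} (hF : PC F) (P : Polynomial ℚ) :
    PC (fun t : ℚ => Polynomial.aeval (F t) P) := by
  have h : (fun t : ℚ => Polynomial.aeval (F t) P) = fun t : ℚ =>
      ∑ i ∈ Finset.range (P.natDegree + 1), (Polynomial.C (P.coeff i)).eval t • (F t) ^ i := by
    funext t
    rw [Polynomial.aeval_eq_sum_range]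
    simp only [Polynomial.eval_C]
  rw [h]
  exact PC.sum _ _ fun i _ => (hF.pow i).smul _

lemma GRP_all {n : ℕ} {f : ℚ → MQ n} (hf : PC f) (𝔤 : Submodule ℚ (MQ n)) (k : ℕ) (hk : 1 ≤ k)
    (h : ∀ i : ℕ, f ((i : ℚ) * k) ∈ 𝔤) (t : ℚ) : f t ∈ 𝔤 := by
  by_contra hne
  obtain ⟨ℓ, hℓ1, hℓ2⟩ := Submodule.exists_le_ker_of_notMem hne
  choose p hp using hf
  set P : Polynomial ℚ := ∑ i, ∑ j, Polynomial.C (ℓ (Matrix.single i j 1)) * p i j with hP
  have key : ∀ t, ℓ (f t) = P.eval t := by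
    intro t
    rw [hP, Polynomial.eval_finsetSum]
    conv_lhs => rw [Matrix.matrix_eq_sum_single (f t)]
    rw [map_sum]
    apply Finset.sum_congr rfl
    intro i _
    rw [map_sum, Polynomial.eval_finsetSum]
    apply Finset.sum_congr rfl
    intro j _
    rw [Polynomial.eval_mul, Polynomial.eval_C, ← hp]
    have : Matrix.single i j (f t i j) = (f t i j) • Matrix.single i j (1 : ℚ) := by
      rw [Matrix.smul_single, smul_eq_mul, mul_one]
    rw [this, map_smul, smul_eq_mul, mul_comm]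
  have hk0 : (k : ℚ) ≠ 0 := by
    have : k ≠ 0 := by omega
    exact_mod_cast this
  have hP0 : P = 0 := by
    apply Polynomial.eq_zero_of_infinite_isRoot
    apply Set.Infinite.mono (s := Set.range fun i : ℕ => (i : ℚ) * k)
    · rintro _ ⟨i, rfl⟩
      show P.eval _ = 0
      rw [← key]
      exact hℓ2 (h i)
    · apply Set.infinite_range_of_injective
      intro i j hij
      have h1 : (i : ℚ) = j := mul_right_cancel₀ hk0 hij
      exact_mod_cast h1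
  apply hℓ1
  rw [key, hP0, Polynomial.eval_zero]

theorem GRP : GRP_stmt := by
  intro n N
  obtain ⟨P, hP1, hP2, hP3⟩ := Pool.Agent.UG.LG Pool.Agent.UG.EXJ n
  refine ⟨P, hP1, ?_⟩
  intro A 𝔞 hLA X hX Y hY
  have hN := hLA.nn
  have hmem : Polynomial.aeval (EX N X * EX N Y - 1) P ∈ 𝔞 := by
    obtain ⟨k, hk, a, ha, hak⟩ := hLA.lat X hX
    obtain ⟨l, hl, b, hb, hbl⟩ := hLA.lat Y hY
    have hint : ∀ i j : ℕ, Polynomial.aeval
        (EX N (((i : ℚ) * k) • X) * EX N (((j : ℚ) * l) • Y) - 1) P ∈ 𝔞 := by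
      intro i j
      have e1 : EX N (((i : ℚ) * k) • X) = qg (a ^ i) := by
        rw [GRP_exp hN (Submodule.smul_mem _ _ hX), qg_pow, hak,
          (Pool.Agent.UG.EXJ n ((k : ℚ) • X)
            (IsNilpotent.smul ⟨N, GRP_pow hN hX⟩ _)).1 i, smul_smul]
      have e2 : EX N (((j : ℚ) * l) • Y) = qg (b ^ j) := by
        rw [GRP_exp hN (Submodule.smul_mem _ _ hY), qg_pow, hbl,
          (Pool.Agent.UG.EXJ n ((l : ℚ) • Y)
            (IsNilpotent.smul ⟨N, GRP_pow hN hY⟩ _)).1 j, smul_smul]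
      obtain ⟨Z, hZ, hZe⟩ := hLA.log (a ^ i * b ^ j) (A.mul_mem (A.pow_mem ha i) (A.pow_mem hb j))
      rw [e1, e2, ← qg_mul, hZe, hP3 Z ⟨N, GRP_pow hN hZ⟩]
      exact hZ
    have hs : ∀ i : ℕ, Polynomial.aeval (EX N (((i : ℚ) * k) • X) * EX N Y - 1) P ∈ 𝔞 := by
      intro i
      have hpc : PC (fun t : ℚ => Polynomial.aeval
          (EX N (((i : ℚ) * k) • X) * EX N (t • Y) + (-1)) P) :=
        GRP_PCA (((PC.const _).mul (GRP_PCE Y)).add (PC.const (-1))) P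
      have h := GRP_all hpc 𝔞 l hl (fun j => by
        have h1 := hint i j
        rwa [sub_eq_add_neg] at h1) 1
      simpa only [one_smul, ← sub_eq_add_neg] using h
    have hpc : PC (fun t : ℚ => Polynomial.aeval (EX N (t • X) * EX N Y + (-1)) P) :=
      GRP_PCA (((GRP_PCE X).mul (PC.const _)).add (PC.const (-1))) P
    have h := GRP_all hpc 𝔞 k hk (fun j => by
      have h1 := hs j
      rwa [sub_eq_add_neg] at h1) 1
    simpa only [one_smul, ← sub_eq_add_neg] using h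
  refine ⟨hmem, ?_⟩
  rw [GRP_exp hN hmem, hP2 _ ⟨N, GRP_nil hN hX hY⟩]
  abel

end Pool.Agent.UH
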