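import Pool.Agent.helper81.UH.Spec

/-!
# Project uh (MP_a2a22c_al), row STC: structure (helper30)
-/

set_option autoImplicit false

namespace Pool.Agent.UH

open Matrix Pool.Agent.H48SL Pool.Agent.UG

/-- the transposed space is nilpotent -/
lemma STC_row {n N : ℕ} (𝔞 : Submodule ℚ (MQ (n + 1))) (hN : NN N 𝔞) :
    ∃ f : Fin (n + 1) → ℚ, f ≠ 0 ∧ ∀ Z ∈ 𝔞, f ᵥ* Z = 0 := by
  set T : MQ (n + 1) →ₗ[ℚ] MQ (n + 1) :=
    (Matrix.transposeLinearEquiv (Fin (n + 1)) (Fin (n + 1)) ℚ ℚ).toLinearMap with hT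
  have hTa : ∀ X, X ∈ 𝔞.comap T ↔ Xᵀ ∈ 𝔞 := fun X => Iff.rfl
  have hnil : ANil (𝔞.comap T) := by
    refine ⟨N, fun l hl hlen => ?_⟩
    have h1 : (l.prod)ᵀ = 0 := by
      rw [Matrix.transpose_list_prod]
      apply hN
      · intro Y hY
        rw [List.mem_reverse, List.mem_map] at hY
        obtain ⟨X, hX, rfl⟩ := hY
        exact (hTa X).1 (hl X hX)
      · rw [List.length_reverse, List.length_map]
        exact hlen
    exact Matrix.transpose_eq_zero.1 h1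
  obtain ⟨v, hv, hk⟩ := Pool.Agent.UG.COM (n + 1) (by omega) (𝔞.comap T) hnil
  refine ⟨v, hv, fun Z hZ => ?_⟩
  have h1 := hk Zᵀ ((hTa _).2 (by rw [Matrix.transpose_transpose]; exact hZ))
  rwa [Matrix.mulVec_transpose] at h1

/-- evaluation at a vector -/
def STC_ev {n : ℕ} (𝔞 : Submodule ℚ (MQ n)) (u : Fin n → ℚ) : 𝔞 →ₗ[ℚ] (Fin n → ℚ) where
  toFun X := (X : MQ n) *ᵥ u
  map_add' X Y := by simp [Matrix.add_mulVec]
  map_smul' c X := by simp [Matrix.smul_mulVec]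

/-- the functional of a row -/
def STC_fn {n : ℕ} (f : Fin n → ℚ) : (Fin n → ℚ) →ₗ[ℚ] ℚ where
  toFun v := f ⬝ᵥ v
  map_add' v w := by rw [dotProduct_add]
  map_smul' c v := by rw [dotProduct_smul]; rfl

lemma STC_dim {n : ℕ} (𝔞 : Submodule ℚ (MQ (n + 1))) (f u : Fin (n + 1) → ℚ) (hf : f ≠ 0)
    (hrow : ∀ Z ∈ 𝔞, f ᵥ* Z = 0) (hu : ∀ X ∈ 𝔞, X *ᵥ u = 0 → X = 0) :
    Module.finrank ℚ 𝔞 ≤ n := by
  have hinj : Function.Injective (STC_ev 𝔞 u) := by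
    rw [← LinearMap.ker_eq_bot, LinearMap.ker_eq_bot']
    intro X hX
    exact Subtype.ext (hu X.1 X.2 hX)
  have h1 : Module.finrank ℚ (LinearMap.range (STC_ev 𝔞 u)) = Module.finrank ℚ 𝔞 :=
    LinearMap.finrank_range_of_inj hinj
  have h2 : LinearMap.range (STC_ev 𝔞 u) ≤ LinearMap.ker (STC_fn f) := by
    rintro _ ⟨X, rfl⟩
    rw [LinearMap.mem_ker]
    show f ⬝ᵥ ((X : MQ (n + 1)) *ᵥ u) = 0
    rw [dotProduct_mulVec, hrow X.1 X.2, zero_dotProduct]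
  have h3 : LinearMap.ker (STC_fn f) ≠ ⊤ := by
    intro h
    apply hf
    ext i
    have h4 : Pi.single i (1 : ℚ) ∈ LinearMap.ker (STC_fn f) := by
      rw [h]
      trivial
    rw [LinearMap.mem_ker] at h4
    have h5 : f ⬝ᵥ Pi.single i (1 : ℚ) = 0 := h4
    rw [dotProduct_single, mul_one] at h5
    exact h5
  have h4 : Module.finrank ℚ (LinearMap.ker (STC_fn f)) < Module.finrank ℚ (Fin (n + 1) → ℚ) :=
    Submodule.finrank_lt h3
  rw [Module.finrank_fin_fun] at h4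
  have h5 := Submodule.finrank_mono h2
  omega

lemma STC_NM {n : ℕ} (X : Fin n → MQ (n + 1)) (u c : Fin (n + 1) → ℚ) :
    NM X u *ᵥ c = c 0 • u + (∑ j, c j.succ • X j) *ᵥ u := by
  ext i
  rw [Matrix.sum_mulVec]
  simp only [mulVec, dotProduct, NM, Fin.sum_univ_succ (n := n), Matrix.of_apply, Fin.cases_zero,
    Fin.cases_succ, Pi.add_apply, Pi.smul_apply, smul_eq_mul, Finset.sum_apply]
  rw [mul_comm]
  congr 1
  refine Finset.sum_congr rfl fun j _ => ?_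
  rw [mul_comm]
  simp only [Matrix.smul_apply, smul_eq_mul, mul_assoc]
  rw [mul_add, Finset.mul_sum]

lemma STC_dl {n : ℕ} (𝔞 : Submodule ℚ (MQ (n + 1))) (hA : ANil 𝔞) (u : Fin (n + 1) → ℚ)
    (hn : 1 ≤ n) (hu : ∀ X ∈ 𝔞, X *ᵥ u = 0 → X = 0) (b : Module.Basis (Fin n) ℚ 𝔞) :
    dl (fun j => (b j : MQ (n + 1))) u ≠ 0 := by
  intro hdet
  have h0 : (NM (fun j => (b j : MQ (n + 1))) u).det = 0 := hdet
  rw [← Matrix.exists_mulVec_eq_zero_iff] at h0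
  obtain ⟨c, hc0, hc⟩ := h0
  rw [STC_NM] at hc
  set Z : 𝔞 := ∑ j, c j.succ • b j with hZ
  have hZc : (Z : MQ (n + 1)) = ∑ j, c j.succ • (b j : MQ (n + 1)) := by
    rw [hZ]
    push_cast
    rfl
  rw [← hZc] at hc
  have hZu : (Z : MQ (n + 1)) *ᵥ u = (-c 0) • u := by
    rw [neg_smul]
    exact eq_neg_of_add_eq_zero_right hc
  have hu0 : u ≠ 0 := by
    intro h
    have h1 : b ⟨0, hn⟩ = 0 := Subtype.ext (hu _ (b ⟨0, hn⟩).2 (by rw [h, mulVec_zero]))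
    exact b.ne_zero ⟨0, hn⟩ h1
  have hpow : ∀ k : ℕ, ((Z : MQ (n + 1)) ^ k) *ᵥ u = (-c 0) ^ k • u := by
    intro k
    induction k with
    | zero => simp
    | succ k ih => rw [pow_succ, ← mulVec_mulVec, hZu, mulVec_smul, ih, smul_smul, pow_succ, mul_comm]
  have hc00 : c 0 = 0 := by
    obtain ⟨k, hk⟩ := hA.nil Z.2
    have h1 := hpow k
    rw [hk, zero_mulVec] at h1
    rcases smul_eq_zero.1 h1.symm with h2 | h2
    · exact neg_eq_zero.1 (eq_zero_of_pow_eq_zero h2)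
    · exact absurd h2 hu0
  have hZ0 : Z = 0 := by
    apply Subtype.ext
    apply hu _ Z.2
    rw [hZu, hc00, neg_zero, zero_smul]
  have hli := Fintype.linearIndependent_iff.1 b.linearIndependent (fun j => c j.succ) (by rw [← hZ, hZ0])
  apply hc0
  ext i
  refine Fin.cases ?_ (fun j => ?_) i
  · exact hc00
  · exact hli j

/-- conjugation as a linear equivalence -/
def STC_E {n : ℕ} (g : SLZ n) : MQ n ≃ₗ[ℚ] MQ n :=
  LinearEquiv.ofLinearMap (CNJ_L g) (CNJ_L g⁻¹)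
    (by
      ext1 X
      show CNJ_L g (CNJ_L g⁻¹ X) = X
      rw [CNJ_L_apply, CNJ_L_apply, inv_inv]
      have h1 : qg g * (qg g⁻¹ * X * qg g) * qg g⁻¹ = (qg g * qg g⁻¹) * X * (qg g * qg g⁻¹) := by
        simp only [mul_assoc]
      rw [h1, qg_mul_inv, one_mul, mul_one])
    (by
      ext1 X
      show CNJ_L g⁻¹ (CNJ_L g X) = X
      rw [CNJ_L_apply g⁻¹, inv_inv]
      exact CNJ_L_inv g X)

lemma STC_finrank {n : ℕ} (g : SLZ n) (𝔞 : Submodule ℚ (MQ n)) :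
    Module.finrank ℚ (𝔞.comap (CNJ_L g)) = Module.finrank ℚ 𝔞 := by
  have h1 : 𝔞.comap (CNJ_L g) = 𝔞.map ((STC_E g).symm : MQ n →ₗ[ℚ] MQ n) :=
    Submodule.comap_equiv_eq_map_symm (STC_E g) 𝔞
  rw [h1]
  exact LinearEquiv.finrank_map_eq (STC_E g).symm 𝔞

lemma STC_back {n : ℕ} (g : SLZ n) (Z : MQ n) : CNJ_L g (qg g⁻¹ * Z * qg g) = Z := by
  rw [CNJ_L_apply]
  have h2 : qg g * (qg g⁻¹ * Z * qg g) * qg g⁻¹ = (qg g * qg g⁻¹) * Z * (qg g * qg g⁻¹) := by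
    simp only [mul_assoc]
  rw [h2, qg_mul_inv, one_mul, mul_one]

theorem STC : STC_stmt := by
  intro n N A H 𝔞 hn hZ hLA hAH hStar hdim
  have hA : ANil 𝔞 := ⟨N, hLA.nn⟩
  obtain ⟨u, hu⟩ : ∃ u : Fin (n + 1) → ℚ, ∀ X ∈ 𝔞, X *ᵥ u = 0 → X = 0 := by
    unfold Pool.Agent.UG.Star at hStar
    push Not at hStar
    obtain ⟨u, hu⟩ := hStar
    refine ⟨u, fun X hX h => ?_⟩
    by_contra h0
    exact hu X hX h0 h
  obtain ⟨f, hf, hrow⟩ := STC_row 𝔞 hLA.nn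
  have hfin : Module.finrank ℚ 𝔞 = n := le_antisymm (STC_dim 𝔞 f u hf hrow hu) hdim
  set b : Module.Basis (Fin n) ℚ 𝔞 := Module.finBasisOfFinrankEq ℚ 𝔞 hfin with hb
  have hdl := STC_dl 𝔞 hA u hn hu b
  obtain ⟨v, hv, hkill⟩ := Pool.Agent.UG.COM (n + 1) (by omega) 𝔞 hA
  obtain ⟨g, c, hg⟩ := CNJ_vec hn v hv
  have hmem : ∀ h : SLZ (n + 1), h ∈ H.comap (MulAut.conj g).toMonoidHom ↔ g * h * g⁻¹ ∈ H :=
    fun h => Iff.rfl
  have hmem' : ∀ h : SLZ (n + 1), h ∈ A.comap (MulAut.conj g).toMonoidHom ↔ g * h * g⁻¹ ∈ A :=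
    fun h => Iff.rfl
  have hmemA : ∀ X, X ∈ 𝔞.comap (CNJ_L g) ↔ CNJ_L g X ∈ 𝔞 := fun X => Iff.rfl
  have hN' : NN N (𝔞.comap (CNJ_L g)) := by
    intro l hl hlen
    apply CNJ_L_zero_iff g
    rw [CNJ_L_prod]
    apply hLA.nn
    · intro Y hY
      rw [List.mem_map] at hY
      obtain ⟨X, hX, rfl⟩ := hY
      exact hl X hX
    · rw [List.length_map]
      exact hlen
  have hA' : ANil (𝔞.comap (CNJ_L g)) := ⟨N, hN'⟩
  refine ⟨A.comap (MulAut.conj g).toMonoidHom, H.comap (MulAut.conj g).toMonoidHom,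
    𝔞.comap (CNJ_L g), fun j => qg g⁻¹ * (b j : MQ (n + 1)) * qg g, f ᵥ* qg g, ?_, ?_, ?_, ?_, ?_, ?_⟩
  · intro hfi
    have h1 : (H.comap (MulAut.conj g).toMonoidHom).index = H.index :=
      Subgroup.index_comap_of_surjective H (MulAut.conj g).surjective
    exact ⟨by rw [← h1]; exact hfi.index_ne_zero⟩
  · intro P hP x
    have hF : IsPoly (fun x : SLZ (n + 1) => MvPolynomial.eval
        (fun y : Fin (n + 1) × Fin (n + 1) =>
          (x : Matrix (Fin (n + 1)) (Fin (n + 1)) ℤ) y.1 y.2) P) := ⟨P, fun _ => rfl⟩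
    obtain ⟨P', hP'⟩ := ip_mul_right (ip_mul_left hF g⁻¹) g
    have h1 := hZ P' (fun h hh => by
      rw [← hP' h]
      apply hP
      rw [hmem]
      have h2 : g * (g⁻¹ * (h * g)) * g⁻¹ = h := by group
      rw [h2]
      exact hh) (g * x * g⁻¹)
    rw [← hP' (g * x * g⁻¹)] at h1
    have h3 : g⁻¹ * (g * x * g⁻¹ * g) = x := by group
    simp only [h3] at h1
    exact h1
  · refine ⟨⟨hN', ?_, ?_⟩, ?_, ?_, ?_, ?_⟩
    · intro X hX
      obtain ⟨k, hk, h, hh, hexp⟩ := hLA.lat _ hX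
      have hnil : IsNilpotent ((k : ℚ) • X) :=
        hA'.nil (Submodule.smul_mem _ _ hX)
      refine ⟨k, hk, g⁻¹ * h * g, ?_, ?_⟩
      · rw [hmem']
        have h2 : g * (g⁻¹ * h * g) * g⁻¹ = h := by group
        rw [h2]
        exact hh
      · have h3 := (Pool.Agent.UG.EXC (n + 1) g ((k : ℚ) • X) hnil).2
        have h4 : (k : ℚ) • CNJ_L g X = qg g * ((k : ℚ) • X) * qg g⁻¹ := by
          rw [← map_smul, CNJ_L_apply]
        rw [h4, h3] at hexp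
        rw [qg_mul, qg_mul, hexp]
        have h5 : qg g⁻¹ * (qg g * IsNilpotent.exp ((k : ℚ) • X) * qg g⁻¹) * qg g =
            (qg g⁻¹ * qg g) * IsNilpotent.exp ((k : ℚ) • X) * (qg g⁻¹ * qg g) := by
          simp only [mul_assoc]
        rw [h5, qg_inv_mul, one_mul, mul_one]
    · intro a ha
      obtain ⟨Z, hZ1, hZ2⟩ := hLA.log _ ((hmem' a).1 ha)
      have hback := STC_back g Z
      refine ⟨qg g⁻¹ * Z * qg g, ?_, ?_⟩
      · rw [hmemA, hback]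
        exact hZ1
      · have h3 := (Pool.Agent.UG.EXC (n + 1) g⁻¹ Z (hA.nil hZ1)).2
        rw [inv_inv, ← hZ2, qg_mul, qg_mul] at h3
        rw [h3]
        have h5 : qg g⁻¹ * (qg g * qg a * qg g⁻¹) * qg g =
            (qg g⁻¹ * qg g) * qg a * (qg g⁻¹ * qg g) := by
          simp only [mul_assoc]
        rw [h5, qg_inv_mul, one_mul, mul_one]
    · intro j
      rw [hmemA, STC_back]
      exact (b j).2
    · intro X hX
      have h1 : qg g * X = CNJ_L g X * qg g := by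
        rw [CNJ_L_apply, mul_assoc, qg_inv_mul, mul_one]
      rw [vecMul_vecMul, h1, ← vecMul_vecMul, hrow _ hX, zero_vecMul]
    · intro X hX
      have h1 := hkill _ hX
      have h2 : (CNJ_L g X) *ᵥ (qg g *ᵥ e0 n) = 0 := by
        rw [hg, mulVec_smul, h1, smul_zero]
      have h3 : X *ᵥ e0 n = qg g⁻¹ *ᵥ ((CNJ_L g X) *ᵥ (qg g *ᵥ e0 n)) := by
        rw [mulVec_mulVec, mulVec_mulVec, CNJ_L_inv]
      rw [h3, h2, mulVec_zero]
    · refine ⟨qg g⁻¹ *ᵥ u, ?_⟩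
      have h1 : NM (fun j => qg g⁻¹ * (b j : MQ (n + 1)) * qg g) (qg g⁻¹ *ᵥ u) =
          qg g⁻¹ * NM (fun j => (b j : MQ (n + 1))) u := by
        ext i j
        refine Fin.cases ?_ (fun j' => ?_) j
        · rw [Matrix.mul_apply]
          rfl
        · have h2 : (qg g⁻¹ * (b j' : MQ (n + 1)) * qg g) *ᵥ (qg g⁻¹ *ᵥ u) =
              qg g⁻¹ *ᵥ ((b j' : MQ (n + 1)) *ᵥ u) := by
            rw [mulVec_mulVec, mulVec_mulVec, mul_assoc, qg_mul_inv, mul_one]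
          rw [Matrix.mul_apply]
          exact congrFun h2 i
      show (NM _ _).det ≠ 0
      rw [h1, Matrix.det_mul]
      refine mul_ne_zero ?_ hdl
      intro h0
      have h2 := congrArg Matrix.det (qg_inv_mul g)
      rw [Matrix.det_mul, h0, zero_mul, Matrix.det_one] at h2
      exact zero_ne_one h2
  · intro h0
    apply hf
    have h1 : f = (f ᵥ* qg g) ᵥ* qg g⁻¹ := by
      rw [vecMul_vecMul, qg_mul_inv, vecMul_one]
    rw [h1, h0, zero_vecMul]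
  · intro a ha
    exact hAH ((hmem' a).1 ha)
  · rw [STC_finrank, hfin]

end Pool.Agent.UH
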